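import Pool.Agent.H78.WCL

namespace Pool.Agent.Results.MP_1cb079_al.Full

/-- Every nilpotent almost torsion-free group satisfies the weak cancellation law. -/
theorem result (G : Type*) [Group G] [Group.IsNilpotent G]
    (h : ∀ n : ℕ, 0 < n → {g : G | g ^ n = 1}.Finite) (n : ℕ) (hn : 0 < n) (y : G) :
    {x : G | x ^ n = y}.Finite :=
  Pool.Agent.H78.WCL.main G h n hn y

end Pool.Agent.Results.MP_1cb079_al.Full
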